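import Pool.Agent.Lib.D9.DensX

/-!
# MP_5dcbc3_ag: all triples `T1X 6 1 r g` are limits of curvilinear triples

Exponents: `e_j`: 2, 5, 9, `q_l`: 1, 3, 4, 6, 7, 8, `f_m`: 10.
-/

namespace Pool.Agent.Lib.D11

open Matrix Pool.Agent.Lib.Q5dc Pool.Agent.Lib.D7 Pool.Agent.Lib.D9

namespace Cl191Aux

/-- the exponents -/
def ex : Fin 1 ⊕ ((Fin 3 ⊕ Fin 6) ⊕ Fin 1) ≃ Fin (10 + 1) where
  toFun := Sum.elim (fun _ => 0) (Sum.elim (Sum.elim ![2, 5, 9] ![1, 3, 4, 6, 7, 8]) ![10])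
  invFun := ![.inl 0,
    .inr (.inl (.inr 0)),
    .inr (.inl (.inl 0)),
    .inr (.inl (.inr 1)),
    .inr (.inl (.inr 2)),
    .inr (.inl (.inl 1)),
    .inr (.inl (.inr 3)),
    .inr (.inl (.inr 4)),
    .inr (.inl (.inr 5)),
    .inr (.inl (.inl 2)),
    .inr (.inr 0)]
  left_inv := by
    intro x
    rcases x with x | ((x | x) | x) <;> fin_cases x <;> rfl
  right_inv := by
    intro x
    fin_cases x <;> rfl

variable {k : Type*} [Field k]

/-- the certificate -/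
def Nc (v : (Fin 6 × Fin 1) ⊕ (Fin 3 × Fin 6 × Fin 1) → k) :
    Matrix (Fin (10 + 1)) (Fin (10 + 1)) k :=
  !![0, 0, 0, 0, 0, 0, 0, 0, 0, 0, 0;
     0,
     0,
     v (.inl (2, 0)),
     0,
     0,
     v (.inl (4, 0)),
     0,
     0,
     v (.inr (2, 5, 0)),
     1 / 2 * v (.inl (5, 0)),
     0;
     0,
     0,
     -v (.inl (3, 0)) + v (.inr (0, 5, 0)),
     0,
     0,
     v (.inr (1, 5, 0)),
     0,
     0,
     0,
     0,
     0;
     0,
     0,
     0,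
     0,
     0,
     0,
     0,
     0,
     0,
     v (.inr (2, 4, 0)),
     0;
     0,
     0,
     v (.inr (0, 3, 0)),
     0,
     0,
     v (.inr (1, 3, 0)),
     0,
     0,
     0,
     v (.inr (2, 3, 0)),
     0;
     0,
     0,
     0,
     0,
     0,
     0,
     0,
     v (.inr (1, 4, 0)),
     0,
     0,
     0;
     0,
     0,
     0,
     0,
     0,
     -v (.inr (0, 4, 0)) + v (.inr (1, 2, 0)),
     0,
     0,
     0,
     v (.inr (2, 2, 0)),
     0;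
     0,
     0,
     0,
     0,
     0,
     v (.inr (1, 1, 0)),
     0,
     3 * v (.inl (3, 0)) - v (.inr (0, 5, 0)) - v (.inr (2, 0, 0)),
     0,
     v (.inr (2, 1, 0)),
     0;
     0,
     0,
     0,
     0,
     v (.inr (0, 2, 0)) - v (.inr (1, 0, 0)),
     0,
     0,
     0,
     0,
     0,
     0;
     0,
     0,
     0,
     0,
     0,
     0,
     0,
     0,
     0,
     -v (.inl (3, 0)) + v (.inr (2, 0, 0)),
     0;
     0,
     0,
     0,
     -v (.inr (0, 0, 0)),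
     -v (.inl (0, 0)),
     -v (.inr (0, 1, 0)),
     -v (.inr (1, 0, 0)),
     -v (.inl (1, 0)),
     0,
     -v (.inr (0, 4, 0)),
     -v (.inl (3, 0))]

variable (v : (Fin 6 × Fin 1) ⊕ (Fin 3 × Fin 6 × Fin 1) → k)

theorem Nc_col (x : Fin (10 + 1)) : Nc v x 0 = 0 := by
  fin_cases x <;> rfl

theorem Nc_row (x : Fin (10 + 1)) : Nc v 0 x = 0 := by
  fin_cases x <;> rfl

variable [CharZero k]

theorem Nc_tr : (Nc v).trace = 0 := by
  simp [Nc, Matrix.trace, Fin.sum_univ_succ] <;> ring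

theorem Nc_r (a : Fin 6) (m : Fin 1) :
    DensX.Dv (Nc v) (DensX.Pe ex (DensX.ri a)) (DensX.Pe ex (DensX.ci a)) (DensX.Pf ex m) =
      v (.inl (a, m)) := by
  fin_cases a <;> fin_cases m <;>
    simp [DensX.Dv, DensX.Pe, DensX.Pf, DensX.ri, DensX.ci, ex, Nc] <;> ring

theorem Nc_g (i : Fin 3) (l : Fin 6) (m : Fin 1) :
    DensX.Dv (Nc v) (DensX.Pe ex i) (DensX.Pq ex l) (DensX.Pf ex m) = v (.inr (i, l, m)) := by
  fin_cases i <;> fin_cases l <;> fin_cases m <;>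
    simp [DensX.Dv, DensX.Pe, DensX.Pf, DensX.Pq, ex, Nc] <;> ring

end Cl191Aux

open Cl191Aux in
/-- all triples `T1X 6 1 r g` are limits of curvilinear triples -/
theorem cl_T191 {k : Type*} [Field k] [IsAlgClosed k] [CharZero k] (r : Fin 6 × Fin 1 → k)
    (g : Fin 3 × Fin 6 × Fin 1 → k) : Cl (T1X 6 1 r g) :=
  cl_T1X_of_cert ex rfl Nc Nc_col Nc_row (fun v => Nc_tr v) (fun v => Nc_r v) (fun v => Nc_g v) r g

end Pool.Agent.Lib.D11
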