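import Pool.Agent.Lib.D10.DensH

/-!
# MP_5dcbc3_ag: all triples `TR 4 R` are limits of curvilinear triples

Base point: `u = X ^ 1`, `X_0 = X ^ 5`, `X_1 = X ^ 3`, `X_2 = X ^ 1 + X ^ 4`, `f`: t^7, t^8, t^9, t^10.
-/

namespace Pool.Agent.Lib.D11

open Matrix Polynomial Pool.Agent.Lib.Q5dc Pool.Agent.Lib.D7 Pool.Agent.Lib.D9
open Pool.Agent.Lib.D9.DensX Pool.Agent.Lib.D10 Pool.Agent.Lib.D10.DensG

namespace CertTR4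

variable {k : Type*} [Field k]

/-- the exponents -/
def ex : Fin 2 ⊕ (Fin 5 ⊕ Fin 4) ≃ Fin (10 + 1) where
  toFun := Sum.elim ![1, 0] (Sum.elim ![6, 5, 4, 3, 2] ![7, 8, 9, 10])
  invFun := ![.inl 1, .inl 0, .inr (.inl 4), .inr (.inl 3), .inr (.inl 2), .inr (.inl 1), .inr (.inl 0), .inr (.inr 0), .inr (.inr 1), .inr (.inr 2), .inr (.inr 3)]
  left_inv := by
    intro x
    rcases x with x | (x | x) <;> fin_cases x <;> rfl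
  right_inv := by
    intro x
    fin_cases x <;> rfl

/-- the inverse of the basis -/
def Li : Fin 2 ⊕ (Fin 5 ⊕ Fin 4) → Fin (10 + 1) → k :=
  Sum.elim ![![0, 1, 0, 0, -1, 0, 0, 0, 0, 0, 0], ![1, 0, 0, 0, 0, 0, 0, 0, 0, 0, 0]] (Sum.elim ![![0, 0, 0, 0, 0, 0, 1, 0, 0, 0, 0], ![0, 0, -1, 0, 0, 1, 0, 0, 0, 0, 0], ![0, 0, 0, 0, 1, 0, 0, 0, 0, 0, 0], ![0, 0, 0, 1, 0, 0, 0, 0, 0, 0, 0], ![0, 0, 1, 0, 0, 0, 0, 0, 0, 0, 0]] ![![0, 0, 0, 0, 0, 0, 0, 1, 0, 0, 0], ![0, 0, 0, 0, 0, 0, 0, 0, 1, 0, 0], ![0, 0, 0, 0, 0, 0, 0, 0, 0, 1, 0], ![0, 0, 0, 0, 0, 0, 0, 0, 0, 0, 1]])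

/-- coordinates of the products -/
def ro : Fin 9 → Fin 2 ⊕ (Fin 5 ⊕ Fin 4) → k :=
  ![Sum.elim ![0, 0] (Sum.elim ![0, 0, 0, 0, 0] ![0, 0, 0, 0]), Sum.elim ![0, 0] (Sum.elim ![0, 0, 0, 0, 0] ![0, 0, 0, 1]), Sum.elim ![0, 0] (Sum.elim ![1, 0, 0, 0, 0] ![0, 0, 1, 0]), Sum.elim ![0, 0] (Sum.elim ![0, 0, 0, 0, 0] ![0, 1, 0, 0]), Sum.elim ![0, 0] (Sum.elim ![0, 0, 0, 0, 0] ![1, 0, 0, 1]), Sum.elim ![-1, 0] (Sum.elim ![0, 0, 1, 0, 0] ![1, 0, 0, 0]), Sum.elim ![0, 0] (Sum.elim ![1, 0, 0, 0, 0] ![0, 0, 0, 0]), Sum.elim ![0, 0] (Sum.elim ![0, 1, 0, 0, 0] ![0, 1, 0, 0]), Sum.elim ![0, 0] (Sum.elim ![2, 0, 0, 1, 0] ![0, 0, 1, 0])]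

/-- remainders of the products -/
noncomputable def rr : Fin 9 → k[X] :=
  ![1, 0, 0, 0, 0, 0, 0, 0, 0]

/-- velocity of `u` -/
def uu (v : Fin 9 × Fin 4 → k) : ℕ → k
  | 0 => v (0, 3)
  | _ => 0

/-- velocity of `x` -/
def xx (v : Fin 9 × Fin 4 → k) : ℕ → k
  | 1 => 1 / 2 * v (0, 0)
  | 2 => 1 / 2 * v (0, 1)
  | 3 => 1 / 2 * v (0, 2)
  | 5 => v (1, 3) - v (4, 3) + v (5, 3) - v (6, 2)
  | 6 => -(2 * v (1, 1)) + 2 * v (2, 0) - 2 * v (3, 2) + 2 * v (4, 1) - 2 * v (5, 1) + 3 * v (6, 0) - 2 * v (6, 3) + 2 * v (7, 2) - 2 * v (8, 0)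
  | 7 => -(2 * v (1, 2)) + 2 * v (3, 0) + 2 * v (4, 2) - 2 * v (5, 2) + 3 * v (6, 1) - 2 * v (7, 0)
  | 8 => -(2 * v (1, 3)) + 2 * v (3, 1) + 2 * v (4, 3) - 2 * v (5, 3) + 3 * v (6, 2) - 2 * v (7, 1)
  | 9 => 2 * v (1, 1) - 2 * v (2, 0) + 4 * v (3, 2) - 2 * v (4, 1) + 2 * v (5, 1) - 2 * v (6, 0) + 3 * v (6, 3) - 4 * v (7, 2) + 2 * v (8, 0)
  | 10 => 2 * v (1, 2) + v (2, 1) - 3 * v (3, 0) + v (3, 3) - 2 * v (4, 2) + 2 * v (5, 2) - 2 * v (6, 1) + 3 * v (7, 0) - v (7, 3) - v (8, 1)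
  | _ => 0

/-- velocity of `y` -/
def yy (v : Fin 9 × Fin 4 → k) : ℕ → k
  | 1 => 1 / 2 * v (0, 2) - v (1, 1) + v (4, 1) - v (5, 1) + v (6, 0)
  | 2 => -(2 * v (0, 3)) - v (1, 2) + v (4, 2) - v (5, 2) + v (6, 1)
  | 4 => -v (1, 1) + v (2, 0) - v (3, 2) + v (4, 1) - v (5, 1) + 2 * v (6, 0) - v (6, 3) + v (7, 2) - v (8, 0)
  | 5 => -v (1, 2) + v (3, 0) + v (4, 2) - v (5, 2) + 2 * v (6, 1) - v (7, 0)
  | 6 => -v (1, 3) + v (3, 1) + v (4, 3) - v (5, 3) + 2 * v (6, 2) - v (7, 1)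
  | 7 => v (1, 1) - v (2, 0) + 2 * v (3, 2) - v (4, 1) + v (5, 1) - v (6, 0) + 2 * v (6, 3) - 2 * v (7, 2) + v (8, 0)
  | 8 => v (1, 2) + v (2, 1) - 2 * v (3, 0) - v (4, 2) + v (5, 2) - v (6, 1) + 2 * v (7, 0) - v (8, 1)
  | 9 => v (1, 3) + v (2, 2) - 2 * v (3, 1) - v (4, 3) + v (5, 3) - v (6, 2) + 2 * v (7, 1) - v (8, 2)
  | 10 => -v (1, 1) + v (2, 0) + v (2, 3) - 3 * v (3, 2) + v (4, 1) - v (5, 1) + v (6, 0) - v (6, 3) + 3 * v (7, 2) - v (8, 0) - v (8, 3)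
  | _ => 0

/-- velocity of `b` -/
def b1 (v : Fin 9 × Fin 4 → k) : k := 1 / 2 * v (0, 1) - v (1, 0) - v (1, 3) + v (4, 0) + v (4, 3) - v (5, 0) - v (5, 3) + v (6, 2)

/-- velocity of `f` -/
def hh (v : Fin 9 × Fin 4 → k) : Fin 4 → Fin 4 → k :=
  ![![-v (5, 0), -(2 * v (1, 1)) + 2 * v (2, 0) - 2 * v (3, 2) + 2 * v (4, 1) - 3 * v (5, 1) + 4 * v (6, 0) - 2 * v (6, 3) + 2 * v (7, 2) - 2 * v (8, 0), -(2 * v (1, 2)) + 2 * v (3, 0) + 2 * v (4, 2) - 3 * v (5, 2) + 4 * v (6, 1) - 2 * v (7, 0), -(2 * v (1, 3)) + 2 * v (3, 1) + 2 * v (4, 3) - 3 * v (5, 3) + 4 * v (6, 2) - 2 * v (7, 1)], ![-(2 * v (0, 3)) - v (1, 2) - v (3, 0) + v (4, 2) - v (5, 2) + v (6, 1), v (1, 3) - v (3, 1) - v (4, 3) + v (5, 3) - v (6, 2), -(3 * v (1, 1)) + 3 * v (2, 0) - 4 * v (3, 2) + 3 * v (4, 1) - 3 * v (5, 1) + 5 * v (6, 0) - 3 * v (6, 3) + 3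 * v (7, 2) - 3 * v (8, 0), -(3 * v (1, 2)) + 3 * v (3, 0) - v (3, 3) + 3 * v (4, 2) - 3 * v (5, 2) + 5 * v (6, 1) - 3 * v (7, 0)], ![v (0, 2) - v (1, 1) - v (2, 0) + v (4, 1) - v (5, 1) + v (6, 0), -v (0, 3) - v (1, 2) - v (2, 1) + v (4, 2) - v (5, 2) + v (6, 1), v (1, 3) - v (2, 2) - v (4, 3) + v (5, 3) - v (6, 2), -(3 * v (1, 1)) + 3 * v (2, 0) - v (2, 3) - 3 * v (3, 2) + 3 * v (4, 1) - 3 * v (5, 1) + 5 * v (6, 0) - 3 * v (6, 3) + 3 * v (7, 2) - 3 * v (8, 0)], ![v (0, 1) - v (1, 0), v (0, 2) - v (1, 1), -v (1, 2), v (1, 3) - 2 * v (4, 3) + 2 * v (5, 3) - 2 * v (6, 2)]]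

theorem coeff_bu (b : k) (u : k[X]) (m : ℕ) :
    (bu b u).coeff m = if m = 0 then 0 else b * u.coeff m := by
  rw [bu, Polynomial.coeff_C_mul, Polynomial.coeff_sub, Polynomial.coeff_C]
  split_ifs with h
  · rw [h, sub_self, mul_zero]
  · rw [sub_zero]

variable (v : Fin 9 × Fin 4 → k)

theorem hL (x y : Fin 2 ⊕ (Fin 5 ⊕ Fin 4)) :
    ∑ m : Fin (10 + 1), (Li x m : k) * (gTR (X ^ 1) (X ^ 6) (X ^ 5) (X ^ 1 + X ^ 4) (X ^ 3) (X ^ 2 + X ^ 5) ![X ^ 7, X ^ 8, X ^ 9, X ^ 10] y : k[X]).coeff m =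
      if x = y then 1 else 0 := by
  rcases x with x | (x | x) <;> rcases y with y | (y | y) <;> fin_cases x <;> fin_cases y <;>
    simp [Li, gTR, Fin.sum_univ_succ, Polynomial.coeff_X_pow, Polynomial.coeff_one,
      Polynomial.coeff_X]

theorem hro (κ : Fin 9) : ![X ^ 5, X ^ 3, X ^ 1 + X ^ 4] (repR κ).1 * ![X ^ 6, X ^ 5, X ^ 1 + X ^ 4, X ^ 3, X ^ 2 + X ^ 5] (repR κ).2 =
      ∑ y, Polynomial.C (ro κ y) * (gTR (X ^ 1) (X ^ 6) (X ^ 5) (X ^ 1 + X ^ 4) (X ^ 3) (X ^ 2 + X ^ 5) ![X ^ 7, X ^ 8, X ^ 9, X ^ 10] y : k[X]) +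
        (Polynomial.X ^ (10 + 1) * rr κ : k[X]) := by
  fin_cases κ <;> simp [repR, ro, rr, gTR, Fin.sum_univ_succ, map_ofNat] <;> ring

variable [CharZero k]

theorem la (l : Fin 4) (F : Fin (10 + 1) → k) : ∑ m, (Li (.inr (.inr l)) m : k) * F m =
      ![F 7, F 8, F 9, F 10] l := by
  fin_cases l <;> simp [Li, Fin.sum_univ_succ] <;> ring

theorem lb (κ : Fin 9) (F : Fin 2 ⊕ (Fin 5 ⊕ Fin 4) → k) : ∑ y, (ro κ y : k) * F y =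
      ![0, F (.inr (.inr 3)), F (.inr (.inl 0)) + F (.inr (.inr 2)), F (.inr (.inr 1)), F (.inr (.inr 3)) + F (.inr (.inr 0)), -F (.inl 0) + F (.inr (.inl 2)) + F (.inr (.inr 0)), F (.inr (.inl 0)), F (.inr (.inl 1)) + F (.inr (.inr 1)), 2 * F (.inr (.inl 0)) + F (.inr (.inl 3)) + F (.inr (.inr 2))] κ := by
  fin_cases κ <;> simp [ro, Fin.sum_univ_succ] <;> ring

theorem H (κ : Fin 9) (l : Fin 4) (U V W D D0 D4 : k[X]) (hU : U = pf 10 (uu v))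
    (hV : V = pf 10 (xx v)) (hW : W = pf 10 (yy v))
    (h1 : D = (X ^ 3) * U + W * (X ^ 1) + (bu 1 U + bu (b1 v) (X ^ 1)))
    (h0 : D0 = (X ^ 5) * U + V * (X ^ 1)) (h4 : D4 = (X ^ 1 + X ^ 4) * U + D * (X ^ 1)) :
      ∑ m : Fin (10 + 1), (Li (.inr (.inr l)) m : k) *
        ((![V, W, D] (repR κ).1 * ![X ^ 6, X ^ 5, X ^ 1 + X ^ 4, X ^ 3, X ^ 2 + X ^ 5] (repR κ).2 +
          ![X ^ 5, X ^ 3, X ^ 1 + X ^ 4] (repR κ).1 * ![D0, V, D, W, D4] (repR κ).2).coeff m -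
          ∑ y, ro κ y * (Sum.elim ![U, 0] (Sum.elim ![D0, V, D, W, D4]
            (fun l => ∑ l', Polynomial.C (hh v l l') * ![X ^ 7, X ^ 8, X ^ 9, X ^ 10] l')) y).coeff m) = v (κ, l) := by
  have cu : ∀ m : ℕ, U.coeff m = if m < 10 + 1 then uu v m else 0 := fun m => by rw [hU, coeff_pf]
  have cv : ∀ m : ℕ, V.coeff m = if m < 10 + 1 then xx v m else 0 := fun m => by rw [hV, coeff_pf]
  have cw : ∀ m : ℕ, W.coeff m = if m < 10 + 1 then yy v m else 0 := fun m => by rw [hW, coeff_pf]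
  have c1 : ∀ m : ℕ, D.coeff m = ((X ^ 3) * U + W * (X ^ 1) + (bu 1 U + bu (b1 v) (X ^ 1))).coeff m := fun m => by rw [h1]
  have c0 : ∀ m : ℕ, D0.coeff m = ((X ^ 5) * U + V * (X ^ 1)).coeff m := fun m => by rw [h0]
  have c4 : ∀ m : ℕ, D4.coeff m = ((X ^ 1 + X ^ 4) * U + D * (X ^ 1)).coeff m := fun m => by rw [h4]
  refine (la l _).trans ?_
  simp only [lb]
  fin_cases κ <;> fin_cases l <;>
    simp [repR, Fin.sum_univ_succ, mul_add, add_mul, mul_sub, sub_mul,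
      Polynomial.coeff_mul_X_pow', Polynomial.coeff_X_pow_mul', Polynomial.coeff_X_pow,
      Polynomial.coeff_X, coeff_bu, cu, cv, cw, c1, c0, c4] <;>
    simp [uu, xx, yy, b1, hh] <;> ring

end CertTR4

open CertTR4 in
/-- all triples `TR 4 R` are limits of curvilinear triples -/
theorem cl_TR4 {k : Type*} [Field k] [CharZero k] (R : Fin 9 × Fin 4 → k) : Cl (TR 4 R) := by
  refine cl_TR_of_cert (c := 4) (n := 10) ex (X ^ 1) (X ^ 5) (X ^ 3) (X ^ 1 + X ^ 4) (X ^ 6) (X ^ 2 + X ^ 5) 1 ![X ^ 7, X ^ 8, X ^ 9, X ^ 10] ?_ ?_ ?_ ?_ ?_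
    Li hL ro rr hro uu xx yy b1 hh (fun v => rfl) (fun v => rfl)
    (fun v κ l U V W D D0 D4 hU hV hW h1 h0 h4 => H v κ l U V W D D0 D4 hU hV hW h1 h0 h4) R
  · simp
  · simp
  all_goals first | ring1 | (simp [bu]; done) | (simp [bu]; ring1)

end Pool.Agent.Lib.D11
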